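import Pool.Agent.Lib.MP_a739c9_pr.Main

open Set MeasureTheory ProbabilityTheory SimpleGraph

namespace Pool.Agent.Lib.SL33

open Pool.Agent.Lib.helper98 Pool.Agent.Lib.MP_a739c9_pr

variable {ω ω' : V → Prop} {R S : Set V} {u v : V} {k y : ℤ}

/-- close the horizontal edges which cross the slit below height `y` -/
def sl (y : ℤ) (ω : V → Prop) : V → Prop := fun m => ω m ∧ ¬ (m.1 = 1 ∧ m.2 < 2 * y)

/-- top bar -/
def bT (k : ℤ) : Set V := rect (-(8 * k + 1)) (8 * k + 1) (4 * k + 1) (8 * k + 1)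

/-- the U-shaped region -/
def rU (k : ℤ) : Set V :=
  {z | z ∈ box 0 (16 * k + 2) ∧ (z.2 ≤ k ∨ z.1 ≤ -(4 * k + 1) ∨ 4 * k + 1 ≤ z.1)}

/-- a ring which crosses the lower axis only at heights at least `y` -/
def EE (k y : ℤ) : Set (V → Prop) := {ω | ∃ u v : V, u.1 ≤ -(4 * k + 1) ∧ 4 * k + 1 ≤ v.1 ∧
  Conn ω (bT k) u v ∧ Conn (sl y ω) (rU k) u v}

/-- the four crossings -/
def Ring (k : ℤ) : Set (V → Prop) :=
  ((LR (-(8 * k + 1)) (8 * k + 1) (4 * k + 1) (8 * k + 1) ∩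
    LR (-(8 * k + 1)) (8 * k + 1) (-(8 * k + 1)) (-(4 * k + 1))) ∩
    TB (-(8 * k + 1)) (-(4 * k + 1)) (-(8 * k + 1)) (8 * k + 1)) ∩
    TB (4 * k + 1) (8 * k + 1) (-(8 * k + 1)) (8 * k + 1)

lemma ring_EE (hk : 1 ≤ k) (h : ω ∈ Ring k) : ω ∈ EE k (-(8 * k + 1)) := by
  obtain ⟨⟨⟨⟨t1, a1, t2, a2, hT⟩, b1, a3, b2, a4, hB⟩, l1, a5, l2, a6, hL⟩, r1, a7, r2, a8, hR⟩ := h
  simp only [mem_ofPred_eq] at a1 a2 a3 a4 a5 a6 a7 a8
  obtain ⟨z1, p1, q1⟩ := cross_meet (a := -(8 * k + 1)) (b := -(4 * k + 1)) (c := 4 * k + 1)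
    (d := 8 * k + 1) hT (fun z hz => hz.2.2) (by omega) (by omega) hL
    (fun z hz => ⟨hz.1, hz.2.1⟩) (by omega) (by omega)
  obtain ⟨z2, p2, q2⟩ := cross_meet (a := 4 * k + 1) (b := 8 * k + 1) (c := 4 * k + 1)
    (d := 8 * k + 1) hT (fun z hz => hz.2.2) (by omega) (by omega) hR
    (fun z hz => ⟨hz.1, hz.2.1⟩) (by omega) (by omega)
  obtain ⟨z3, p3, q3⟩ := cross_meet (a := -(8 * k + 1)) (b := -(4 * k + 1)) (c := -(8 * k + 1))
    (d := -(4 * k + 1)) hB (fun z hz => hz.2.2) (by omega) (by omega) hL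
    (fun z hz => ⟨hz.1, hz.2.1⟩) (by omega) (by omega)
  obtain ⟨z4, p4, q4⟩ := cross_meet (a := 4 * k + 1) (b := 8 * k + 1) (c := -(8 * k + 1))
    (d := -(4 * k + 1)) hB (fun z hz => hz.2.2) (by omega) (by omega) hR
    (fun z hz => ⟨hz.1, hz.2.1⟩) (by omega) (by omega)
  refine ⟨z1, z2, q1.right_mem.2.1, q2.right_mem.1, p1.symm.trans p2, ?_⟩
  refine (((q1.symm.trans q3).imp ?_ ?_).trans ((p3.symm.trans p4).imp ?_ ?_)).trans
    ((q4.symm.trans q2).imp ?_ ?_)
  all_goals first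
    | (intro a ha b hb hab ho
       refine ⟨ho, ?_⟩
       simp only [rect, mem_ofPred_eq, Prod.fst_add, Prod.snd_add] at *
       omega)
    | (intro z hz
       simp only [rU, mem_box, rect, mem_ofPred_eq, Prod.fst_zero, Prod.snd_zero] at *
       omega)

lemma EE_ann (hk : 1 ≤ k) (h : ω ∈ EE k (-k)) : ω ∈ Ann k (4 * k) := by
  obtain ⟨u, v, hu, hv, -, h⟩ := h
  obtain ⟨a, b, k1, k2, k3, k4, -⟩ := h.first_exit' (S := {z | z.1 ≤ 0})
    (by simp only [mem_ofPred_eq]; omega) (by simp only [mem_ofPred_eq]; omega)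
  have ha : a ∈ box 0 k := by
    have h1 := k1.right_mem
    have h2 := k3.2
    simp only [rU, mem_inter_iff, mem_box, mem_ofPred_eq, Prod.fst_zero, Prod.snd_zero,
      Prod.fst_add, Prod.snd_add, adj] at *
    omega
  obtain ⟨c, h1, h2⟩ := (k1.symm.mono' (ω' := ω) fun e he => he.1).exit_box (x := 0) (n := 4 * k)
    (box_mono (by omega) ha) (by simp only [mem_box, Prod.fst_zero]; omega)
  rcases h2.symm.first_exit (S := (box 0 (k - 1))ᶜ)
    (fun h' => h1 (box_mono (by omega) h')) with h3 | ⟨s, t, j1, j2, -, j4, -⟩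
  · exact ⟨a, ha, c, h1, h3.symm.mono fun z hz => ⟨hz.1.2, hz.2⟩⟩
  · exact ⟨s, adj_mem_box (not_not.1 j4) j2.symm, c, h1, j1.symm.mono fun z hz => ⟨hz.1.2, hz.2⟩⟩

/-- the tip neighbours at height `y` are joined, but not near the tip -/
def GG (k y : ℤ) : Set (V → Prop) :=
  {ω | Conn (sl (y + 1) ω) (box (0, y) (24 * k + 3)) (0, y) (1, y) ∧
    ¬ Conn (sl (y + 1) ω) (box (0, y) k) (0, y) (1, y)}

lemma GG_of (h1 : -(8 * k + 1) ≤ y) (h2 : y < -k) (h : ω ∈ EE k y)
    (h' : ω ∉ EE k (y + 1)) : ω ∈ GG k y := by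
  obtain ⟨u, v, hu, hv, hT, hU⟩ := h
  have hn : ¬ Conn (sl (y + 1) ω) (rU k) u v := fun c => h' ⟨u, v, hu, hv, hT, c⟩
  have hab : adj (0, y) (1, y) := by simp [adj]
  have key : ∀ {s t : V}, Conn (ovr {((0, y) : V) + (1, y)} False (sl y ω)) (rU k) s t →
      Conn (sl (y + 1) ω) (rU k) s t := fun c => c.imp subset_rfl fun a _ b _ hab ho => by
    by_cases e : a + b ∈ ({((0, y) : V) + (1, y)} : Set V)
    · rw [ovr_of_mem e] at ho
      exact ho.elim
    · rw [ovr_of_notMem e] at ho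
      refine ⟨ho.1, ?_⟩
      have := ho.2
      simp only [mem_singleton_iff, Prod.ext_iff, Prod.fst_add, Prod.snd_add, adj] at *
      omega
  have sU : rU k ⊆ box (0, y) (24 * k + 3) := fun z hz => by
    simp only [rU, mem_box, mem_ofPred_eq, Prod.fst_zero, Prod.snd_zero] at *
    omega
  have sB : box (0, y) k ⊆ rU k := fun z hz => by
    simp only [rU, mem_box, mem_ofPred_eq, Prod.fst_zero, Prod.snd_zero] at *
    omega
  have hT' : Conn (sl (y + 1) ω) (box (0, y) (24 * k + 3)) u v := hT.imp (fun z hz => by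
    simp only [bT, rect, mem_box, mem_ofPred_eq] at *
    omega) fun a ha b hb _ ho => ⟨ho, by
      simp only [bT, rect, mem_ofPred_eq, Prod.fst_add, Prod.snd_add] at *
      omega⟩
  rcases conn_ovr hab (hU.mono' (le_ovr_true _ _)) with c | ⟨c1 | c1, c2 | c2⟩
  · exact (hn (key c)).elim
  · exact (hn (key (c1.trans c2))).elim
  · exact ⟨(((key c1).symm.mono sU).trans hT').trans ((key c2).symm.mono sU),
      fun c => hn (((key c1).trans (c.mono sB)).trans (key c2))⟩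
  · exact ⟨(((key c2).mono sU).trans hT'.symm).trans ((key c1).mono sU),
      fun c => hn (((key c1).trans (c.mono sB).symm).trans (key c2))⟩
  · exact (hn (key (c1.trans c2))).elim

lemma exists_step {P : ℤ → Prop} {a b : ℤ} (hab : a ≤ b) (ha : P a) (hb : ¬ P b) :
    ∃ y, a ≤ y ∧ y < b ∧ P y ∧ ¬ P (y + 1) := by
  by_contra hc
  push Not at hc
  have : ∀ n, a ≤ n → n ≤ b → P n := fun n hn => by
    induction n, hn using Int.leInduction with
    | base => exact fun _ => ha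
    | succ n hn ih => exact fun h => hc n hn (by omega) (ih (by omega))
  exact hb (this b hab le_rfl)

/-- the event at the tip of the slit -/
def FF0 (k : ℤ) : Set (V → Prop) :=
  {ω | Conn (sl 0 ω) (box 0 (24 * k + 3)) 0 (1, 0) ∧ ¬ Conn (sl 0 ω) (box 0 k) 0 (1, 0)}

lemma dep_FF0 (hk : 1 ≤ k) : Dep (Ed (box 0 (24 * k + 3))) (FF0 k) := by
  rintro ω ω' h ⟨h1, h2⟩
  refine ⟨h1.congr fun e he => and_congr_left fun _ => h e he, fun c => h2 (c.congr fun e he =>
    and_congr_left fun _ => (h e (Ed_mono (box_mono (by omega)) he)).symm)⟩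

lemma conn_shift (t : V) (hR : ∀ z ∈ R, z + t ∈ S)
    (hω : ∀ a b, adj a b → ω (a + b) → ω' (a + t + (b + t))) (h : Conn ω R u v) :
    Conn ω' S (u + t) (v + t) := by
  induction h with
  | refl h => exact Conn.refl (hR _ h)
  | tail _ k1 k2 k3 ih =>
    exact ih.tail (by simp only [adj, Prod.fst_add, Prod.snd_add] at *; omega) (hω _ _ k1 k2)
      (hR _ k3)

lemma GG_le (hk : 1 ≤ k) (y : ℤ) : pr (1 / 2) (GG k y) ≤ 2 * pr (1 / 2) (FF0 k) := by
  have hE := Ed_finite (box_finite (0 : V) (24 * k + 3))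
  have h1 := finite_energy_one (p := 1 / 2) (δ := 1 / 2) (by norm_num) le_rfl (by norm_num) hE
    (dep_FF0 hk) ((1, 0) : V) False
  have h2 := pr_preimage_inj (p := 1 / 2) (f := fun z : V => z + (0, 2 * y)) (add_left_injective _)
    (((dep_FF0 hk).ovr {((1, 0) : V)} False).measurableSet hE.sdiff)
  have h3 : GG k y ⊆ {ω | (fun i => ω (i + (0, 2 * y))) ∈ ovr {((1, 0) : V)} False ⁻¹' FF0 k} := by
    rintro ω ⟨c1, c2⟩
    constructor
    · have := conn_shift (ω' := sl 0 (ovr {((1, 0) : V)} False fun i => ω (i + (0, 2 * y))))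
        (S := box 0 (24 * k + 3)) (0, -y) (fun z hz => by
          simp only [mem_box, Prod.fst_add, Prod.snd_add, Prod.fst_zero, Prod.snd_zero] at *
          omega) (fun a b hab ho => by
          have e1 := ho.2
          have e2 : a + (0, -y) + (b + (0, -y)) ∉ ({((1, 0) : V)} : Set V) := by
            simp only [mem_singleton_iff, Prod.ext_iff, Prod.fst_add, Prod.snd_add] at *
            omega
          have e3 : a + (0, -y) + (b + (0, -y)) + (0, 2 * y) = a + b := by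
            simp only [Prod.ext_iff, Prod.fst_add, Prod.snd_add]
            omega
          refine ⟨?_, by simp only [Prod.fst_add, Prod.snd_add] at *; omega⟩
          rw [ovr_of_notMem e2, e3]
          exact ho.1) c1
      simpa [Prod.mk_zero_zero] using this
    · refine fun c => c2 ?_
      have := conn_shift (ω' := sl (y + 1) ω) (S := box (0, y) k) (0, y) (fun z hz => by
          simp only [mem_box, Prod.fst_add, Prod.snd_add, Prod.fst_zero, Prod.snd_zero] at *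
          omega) (fun a b hab ho => by
          obtain ⟨e1, e2⟩ := ho
          by_cases e : a + b ∈ ({((1, 0) : V)} : Set V)
          · rw [ovr_of_mem e] at e1
            exact e1.elim
          · rw [ovr_of_notMem e] at e1
            have e3 : a + (0, y) + (b + (0, y)) = a + b + (0, 2 * y) := by
              simp only [Prod.ext_iff, Prod.fst_add, Prod.snd_add]
              omega
            refine ⟨e3 ▸ e1, ?_⟩
            simp only [mem_singleton_iff, Prod.ext_iff, Prod.fst_add, Prod.snd_add, adj] at *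
            omega) c
      simpa using this
  have h4 := pr_mono (p := 1 / 2) h3
  rw [h2] at h4
  linarith

lemma ring_ge : ∃ c : ℝ, 0 < c ∧ ∀ k : ℤ, 1 ≤ k → c ≤ pr (1 / 2) (Ring k ∩ (Ann k (4 * k))ᶜ) := by
  obtain ⟨c, hc, h⟩ := rsw
  obtain ⟨q, q0, q1, hq⟩ := ann_le
  refine ⟨c ^ 4 * (1 - q), mul_pos (pow_pos hc 4) (by linarith), fun k hk => ?_⟩
  have sh : ∀ a b, b - a = 4 * k → c ≤ pr (1 / 2) (TB a b (-(8 * k + 1)) (8 * k + 1)) :=
    fun a b hab => (h (2 * k) (by omega)).trans (pr_TB_shift (by omega) (by omega) (by omega))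
  have a3 := sh (-(8 * k + 1)) (-(4 * k + 1)) (by omega)
  have a4 := sh (4 * k + 1) (8 * k + 1) (by omega)
  have a1 := a4
  have a2 := a3
  rw [pr_TB_swap] at a1 a2
  have hE : (Ed (box (0 : V) (8 * k + 1) \ box 0 (4 * k))).Finite :=
    Ed_finite (box_finite _ _).sdiff
  have dd : ∀ a b c d X Y, -(8 * k + 1) ≤ a → b ≤ 8 * k + 1 → -(8 * k + 1) ≤ c → d ≤ 8 * k + 1 →
      (4 * k < a ∨ b < -(4 * k) ∨ 4 * k < c ∨ d < -(4 * k)) →
      Dep (Ed (box (0 : V) (8 * k + 1) \ box 0 (4 * k))) (Cr (rect a b c d) X Y) :=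
    fun a b c d X Y _ _ _ _ _ => (dep_Cr _ _ _).mono (Ed_mono fun z hz => by
      simp only [Set.mem_sdiff, mem_box, rect, mem_ofPred_eq, Prod.fst_zero, Prod.snd_zero] at *
      omega)
  have d1 : Dep _ (LR (-(8 * k + 1)) (8 * k + 1) (4 * k + 1) (8 * k + 1)) :=
    dd _ _ _ _ _ _ (by omega) (by omega) (by omega) (by omega) (by omega)
  have d2 : Dep _ (LR (-(8 * k + 1)) (8 * k + 1) (-(8 * k + 1)) (-(4 * k + 1))) :=
    dd _ _ _ _ _ _ (by omega) (by omega) (by omega) (by omega) (by omega)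
  have d3 : Dep _ (TB (-(8 * k + 1)) (-(4 * k + 1)) (-(8 * k + 1)) (8 * k + 1)) :=
    dd _ _ _ _ _ _ (by omega) (by omega) (by omega) (by omega) (by omega)
  have d4 : Dep _ (TB (4 * k + 1) (8 * k + 1) (-(8 * k + 1)) (8 * k + 1)) :=
    dd _ _ _ _ _ _ (by omega) (by omega) (by omega) (by omega) (by omega)
  have i1 : ∀ a b c d, Incr (LR a b c d) := fun _ _ _ _ => incr_Cr _ _ _
  have i2 : ∀ a b c d, Incr (TB a b c d) := fun _ _ _ _ => incr_Cr _ _ _
  have b1 := (mul_le_mul a1 a2 hc.le (pr_nonneg _ _)).trans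
    (harris (by norm_num) (by norm_num) hE d1 d2 (i1 _ _ _ _) (i1 _ _ _ _))
  have b2 := (mul_le_mul b1 a3 hc.le (pr_nonneg _ _)).trans
    (harris (by norm_num) (by norm_num) hE (d1.inter d2) d3 ((i1 _ _ _ _).inter (i1 _ _ _ _))
      (i2 _ _ _ _))
  have b3 := (mul_le_mul b2 a4 hc.le (pr_nonneg _ _)).trans
    (harris (by norm_num) (by norm_num) hE ((d1.inter d2).inter d3) d4
      (((i1 _ _ _ _).inter (i1 _ _ _ _)).inter (i2 _ _ _ _)) (i2 _ _ _ _))
  have hF : (Ed (box (0 : V) (4 * k) \ box 0 (k - 1))).Finite := Ed_finite (box_finite _ _).sdiff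
  have dA : Dep (Ed (box (0 : V) (4 * k) \ box 0 (k - 1))) (Ann k (4 * k)) := dep_Cr _ _ _
  rw [Ring, pr_inter_of_disjoint (((d1.inter d2).inter d3).inter d4) dA.compl hE hF
    (Ed_disjoint (Set.disjoint_left.2 fun z h1 h2 => h1.2 h2.1)), pr_compl (dA.measurableSet hF)]
  exact mul_le_mul (le_trans (le_of_eq (by ring)) b3) (by linarith [hq k hk]) (by linarith)
    (pr_nonneg _ _)

theorem FF0_ge : ∃ c : ℝ, 0 < c ∧ ∀ k : ℤ, 1 ≤ k → c / k ≤ pr (1 / 2) (FF0 k) := by
  obtain ⟨c, hc, h⟩ := ring_ge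
  refine ⟨c / 16, by positivity, fun k hk => ?_⟩
  have h1 : pr (1 / 2) (Ring k ∩ (Ann k (4 * k))ᶜ) ≤
      ∑ y ∈ Finset.Ico (-(8 * k + 1)) (-k), pr (1 / 2) (GG k y) := by
    refine pr_le_sum _ _ fun ω hω => ?_
    obtain ⟨y, y1, y2, y3, y4⟩ := exists_step (P := fun y => ω ∈ EE k y) (a := -(8 * k + 1))
      (b := -k) (by omega) (ring_EE hk hω.1) fun c => hω.2 (EE_ann hk c)
    exact ⟨y, Finset.mem_Ico.2 ⟨y1, y2⟩, GG_of y1 y2 y3 y4⟩
  have h2 := Finset.sum_le_card_nsmul (Finset.Ico (-(8 * k + 1)) (-k)) _ _ fun y _ => GG_le hk y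
  have h3 : (((Finset.Ico (-(8 * k + 1)) (-k)).card : ℕ) : ℝ) ≤ 8 * k := by
    have : (((Finset.Ico (-(8 * k + 1)) (-k)).card : ℕ) : ℤ) ≤ 8 * k := by
      rw [Int.card_Ico]; omega
    exact_mod_cast this
  rw [nsmul_eq_mul] at h2
  have h4 : (0 : ℝ) < k := by exact_mod_cast (by omega : (0 : ℤ) < k)
  have h5 := pr_nonneg (1 / 2) (FF0 k)
  rw [div_le_iff₀ h4]
  nlinarith [h k hk, mul_le_mul_of_nonneg_right h3 h5]

lemma conn_of_short (w : (OG univ ω).Walk u v) : ∀ (x : V) (r : ℤ), u ∈ box x r →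
    Conn ω (box x (r + w.length)) u v := by
  induction w with
  | nil => exact fun x r h => Conn.refl (by simpa using h)
  | cons h w ih =>
    intro x r hu
    have h1 := adj_mem_box (x := x) (n := r + 1) (by simpa using hu) h.1
    have h2 := ih x (r + 1) h1
    rw [Walk.length_cons, show r + ((w.length + 1 : ℕ) : ℤ) = r + 1 + w.length by push_cast; ring]
    exact (Conn.single (box_mono (by omega) hu) (box_mono (by omega) h1) h.1 h.2.1).trans h2

lemma reach_of_conn (h : Conn ω R u v) : (OG univ ω).Reachable u v := by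
  induction h with
  | refl _ => exact Reachable.refl _
  | tail _ k1 k2 _ ih => exact ih.trans (Adj.reachable ⟨k1, k2, trivial, trivial⟩)

lemma dist_of_FF0 {k : ℕ} (h : ω ∈ FF0 k) : k < (OG univ (sl 0 ω)).dist 0 (1, 0) := by
  obtain ⟨w, hw⟩ := (reach_of_conn h.1).exists_walk_length_eq_dist
  by_contra hc
  exact h.2 ((conn_of_short w 0 0 (by simp [mem_box])).mono (box_mono (by omega)))

end Pool.Agent.Lib.SL33
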