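import Mathlib

namespace Pool.Agent.Lib.SL33

/-- The graph whose edges are those edges of `ω` which do not cross the slit: the horizontal
edges from `(0, j)` to `(1, j)` with `j < 0` are deleted. -/
def slitGraph (ω : Set (Sym2 (ℤ × ℤ))) : SimpleGraph (ℤ × ℤ) :=
  SimpleGraph.fromEdgeSet {e | e ∈ ω ∧ ∀ j : ℤ, j < 0 → e ≠ s((0, j), (1, j))}

end Pool.Agent.Lib.SL33
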