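import Pool.Agent.Lib.SL33.Core
import Pool.Agent.Lib.SL33.Defs

open Set MeasureTheory ProbabilityTheory SimpleGraph Filter
open scoped ENNReal

namespace Pool.Agent.Lib.SL33

open Pool.Agent.Lib.helper98 Pool.Agent.Lib.MP_a739c9_pr

lemma slit_edges (ω : V → Prop) : slitGraph (edges ω) = OG univ (sl 0 ω) := by
  ext a b
  rw [slitGraph, fromEdgeSet_adj]
  constructor
  · rintro ⟨⟨⟨h1, h2⟩, h3⟩, -⟩
    have k := lattice_adj.mp h1
    refine ⟨k, ⟨by rwa [idx_adj k] at h2, ?_⟩, trivial, trivial⟩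
    rintro ⟨e1, e2⟩
    simp only [adj, Prod.fst_add, Prod.snd_add] at k e1 e2
    refine h3 a.2 (by omega) ?_
    rw [Sym2.eq_iff, Prod.ext_iff, Prod.ext_iff, Prod.ext_iff, Prod.ext_iff]
    dsimp only
    omega
  · rintro ⟨h1, ⟨h2, h3⟩, -, -⟩
    refine ⟨⟨⟨lattice_adj.mpr h1, by rwa [idx_adj h1]⟩, fun j hj e => h3 ?_⟩, h1.ne⟩
    rw [Sym2.eq_iff] at e
    simp only [Prod.ext_iff, Prod.fst_add, Prod.snd_add] at e ⊢
    omega

lemma meas_slit (u v : V) : Measurable fun s => (slitGraph s).dist u v := by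
  have h1 : Measurable fun s : Set (Sym2 V) =>
      ({e | e ∈ s ∧ ∀ j : ℤ, j < 0 → e ≠ s((0, j), (1, j))} : Set (Sym2 V)) :=
    measurable_set_iff.2 fun e => (measurable_set_mem e).and measurable_const
  have h2 : (fun s => (slitGraph s).dist u v) = (fun s => (RG univ s).dist u v) ∘
      fun s : Set (Sym2 V) =>
        ({e | e ∈ s ∧ ∀ j : ℤ, j < 0 → e ≠ s((0, j), (1, j))} : Set (Sym2 V)) := by
    funext s
    simp [slitGraph, RG]
  rw [h2]
  exact (meas_dist univ u v).comp h1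

/-- the tail of the chemical distance between the tip neighbours -/
theorem tail_ge (p : unitInterval) (hp : (p : ℝ) = 1 / 2) : ∃ c : ℝ, 0 < c ∧ ∀ k : ℕ, 1 ≤ k →
    c / k ≤ (setBernoulli lattice.edgeSet p).real {s | k < (slitGraph s).dist (0, 0) (1, 0)} := by
  obtain ⟨c, hc, h⟩ := FF0_ge
  refine ⟨c, hc, fun k hk => ?_⟩
  have hm : MeasurableSet {s | k < (slitGraph s).dist (0, 0) (1, 0)} :=
    meas_slit (0, 0) (1, 0) (measurableSet_Ioi (a := k))
  rw [← map_edges, map_measureReal_apply measurable_edges hm, hp]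
  have h1 := h k (by exact_mod_cast hk)
  rw [Int.cast_natCast] at h1
  refine h1.trans (pr_mono fun ω hω => ?_)
  change k < (slitGraph (edges ω)).dist (0, 0) (1, 0)
  rw [slit_edges]
  exact dist_of_FF0 hω

lemma lintegral_top {Ω : Type} [MeasurableSpace Ω] (ν : Measure Ω) {D : Ω → ℕ} (hD : Measurable D)
    {c : ℝ} (hc : 0 < c) (h : ∀ k : ℕ, ENNReal.ofReal (c / (k + 1)) ≤ ν {s | k < D s}) :
    ∫⁻ s, (D s : ℝ≥0∞) ∂ν = ⊤ := by
  classical
  have hm : ∀ k : ℕ, MeasurableSet {s | k < D s} := fun k => hD (measurableSet_Ioi (a := k))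
  have key : ∀ K : ℕ, ENNReal.ofReal (c * ∑ k ∈ Finset.range K, 1 / ((k : ℝ) + 1)) ≤
      ∫⁻ s, (D s : ℝ≥0∞) ∂ν := fun K => by
    rw [Finset.mul_sum, ENNReal.ofReal_sum_of_nonneg fun k _ => by positivity]
    calc ∑ k ∈ Finset.range K, ENNReal.ofReal (c * (1 / ((k : ℝ) + 1)))
        ≤ ∑ k ∈ Finset.range K, ∫⁻ s, {s | k < D s}.indicator 1 s ∂ν :=
          Finset.sum_le_sum fun k _ => by
            rw [lintegral_indicator_one (hm k), mul_one_div]
            exact h k
      _ = ∫⁻ s, ∑ k ∈ Finset.range K, {s | k < D s}.indicator 1 s ∂ν :=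
          (lintegral_finsetSum _ fun k _ => measurable_one.indicator (hm k)).symm
      _ ≤ _ := lintegral_mono fun s => by
          have h1 : ((Finset.range K).filter fun k => k < D s).card ≤ D s :=
            (Finset.card_le_card fun k hk => Finset.mem_range.2 (Finset.mem_filter.1 hk).2).trans
              (Finset.card_range _).le
          have h2 : ∑ k ∈ Finset.range K, {s | k < D s}.indicator (1 : Ω → ℝ≥0∞) s =
              (((Finset.range K).filter fun k => k < D s).card : ℝ≥0∞) := by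
            simp [indicator_apply]
          rw [h2]
          exact Nat.cast_le.2 h1
  by_contra hne
  obtain ⟨K, hK⟩ := ((Real.tendsto_sum_range_one_div_nat_succ_atTop.const_mul_atTop hc).eventually
    (eventually_gt_atTop (∫⁻ s, (D s : ℝ≥0∞) ∂ν).toReal)).exists
  have := (ENNReal.ofReal_le_iff_le_toReal hne).1 (key K)
  linarith

theorem mean_top (p : unitInterval) (hp : (p : ℝ) = 1 / 2) :
    ∫⁻ s, ((slitGraph s).dist (0, 0) (1, 0) : ℝ≥0∞)
      ∂(setBernoulli lattice.edgeSet p)[|{s | (slitGraph s).Reachable (0, 0) (1, 0)}] = ⊤ := by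
  obtain ⟨c, hc, h⟩ := tail_ge p hp
  have hD := meas_slit (0, 0) (1, 0)
  rw [ProbabilityTheory.cond, lintegral_smul_measure, lintegral_top _ hD hc fun k => ?_, smul_eq_mul,
    ENNReal.mul_top (ENNReal.inv_ne_zero.2 (measure_ne_top _ _))]
  have hm : MeasurableSet {s | k < (slitGraph s).dist (0, 0) (1, 0)} :=
    hD (measurableSet_Ioi (a := k))
  have hs : {s | k < (slitGraph s).dist (0, 0) (1, 0)} ⊆
      {s | (slitGraph s).Reachable (0, 0) (1, 0)} := fun s hs =>
    Reachable.of_dist_ne_zero (Nat.ne_of_gt (lt_of_le_of_lt (Nat.zero_le k) hs))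
  rw [Measure.restrict_apply hm, inter_eq_left.2 hs]
  have h1 := h (k + 1) (by omega)
  push_cast at h1
  refine ENNReal.ofReal_le_of_le_toReal (h1.trans (measureReal_mono fun s hs => ?_))
  exact lt_trans (Nat.lt_succ_self k) hs

end Pool.Agent.Lib.SL33
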